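import Pool.Agent.H.MP_a8a68c_co.E

namespace Pool.Agent.Results.MP_a8a68c_co.Yes
open Finset Pool.Agent.H.MP_a8a68c_co

theorem cnd {P : (ℕ → ℕ → ℕ) → (ℕ → ℕ → ℕ) → ℕ → ℕ → ℕ → ℕ → Bool} {c : Bool}
    {x1 x2 y1 y2 : ℕ → ℕ → ℕ} {x3 x4 x5 x6 y3 y4 y5 y6 : ℕ}
    (h : cond c (P x1 x2 x3 x4 x5 x6) (P y1 y2 y3 y4 y5 y6) = true) :
    ∃ B1 B2 D C a b, P B1 B2 D C a b = true := by
  cases c
  · exact ⟨y1, y2, y3, y4, y5, y6, h⟩
  · exact ⟨x1, x2, x3, x4, x5, x6, h⟩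

/-- There are `1 ≤ n < m` and an `n × m` Youden-type design with at least three stages and at
least three layers. -/
theorem result : ∃ n m : ℕ, 1 ≤ n ∧ n < m ∧ ∃ 𝓕 𝓖 : Finset (Finpartition (univ : Finset (Fin (n * m)))),
    3 ≤ 𝓕.card ∧ 3 ≤ 𝓖.card ∧ Youden n m 𝓕 𝓖 := by
  have a1 := h1
  have a2 := h2
  have a3 := h3
  simp only [c1, Bool.and_eq_true, Bool.or_eq_true, allLt_iff, Nat.beq_eq, Nat.ble_eq] at a1
  simp only [c2, c3, Bool.or_eq_true, allLt_iff, Nat.beq_eq] at a2 a3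
  have hF : ∀ i < 3, Lab 351 27 13 (ff i) (fi i) (fs i) := fun i hi => labB_ok (a1.1 i hi).1
  have hG : ∀ i < 3, Lab 351 13 27 (gf i) (gi i) (gs i) := fun i hi => labB_ok (a1.1 i hi).2
  have uF := UB3 hF (by norm_num) (by norm_num) 0 1 (by norm_num [Int.floor_eq_iff])
    (by norm_num [Int.ceil_eq_iff]) (by norm_num) (by norm_num)
    (fun i hi j hj hij p hp q hq => by
      have := ((a1.2 i hi j hj).2.resolve_left hij).1 p hp q hq; omega)
    (fun i hi l hl j hj e1 e2 => by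
      have := (a3 i hi l hl j (by omega)).resolve_left (by omega)
      exact cnd (P := fun B1 B2 D C a b => keyB _ _ _ _ _ _ _ _ B1 B2 D C a b) this)
  have uG := UB3 hG (by norm_num) (by norm_num) 2 3 (by norm_num [Int.floor_eq_iff])
    (by norm_num [Int.ceil_eq_iff]) (by norm_num) (by norm_num)
    (fun i hi j hj hij p hp q hq => ((a1.2 i hi j hj).2.resolve_left hij).2 p hp q hq)
    (fun i hi l hl j hj e1 e2 => by
      have := (a2 i hi l hl j (by omega)).resolve_left (by omega)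
      exact cnd (P := fun B1 B2 D C a b => keyB _ _ _ _ _ _ _ _ B1 B2 D C a b) this)
  refine ⟨13, 27, by norm_num, by norm_num, _, _, uF.1.ge, uG.1.ge, fun F h => ?_, fun G h => ?_,
    fun F h G h' p hp q hq => ?_, uF.2, uG.2⟩
  · obtain ⟨i, -, rfl⟩ := mem_image.1 h
    refine ⟨Lab.ncard _ _, fun p hp => ?_⟩
    obtain ⟨a, ha, rfl⟩ := (Lab.mem _ _).1 hp
    exact (hF i i.2).card ha
  · obtain ⟨i, -, rfl⟩ := mem_image.1 h
    refine ⟨Lab.ncard _ _, fun p hp => ?_⟩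
    obtain ⟨a, ha, rfl⟩ := (Lab.mem _ _).1 hp
    exact (hG i i.2).card ha
  · obtain ⟨i, -, rfl⟩ := mem_image.1 h
    obtain ⟨j, -, rfl⟩ := mem_image.1 h'
    obtain ⟨a, ha, rfl⟩ := (Lab.mem _ _).1 hp
    obtain ⟨b, hb, rfl⟩ := (Lab.mem _ _).1 hq
    exact ((hF i i.2).cnt ha _ _).trans ((a1.2 i i.2 j j.2).1 a ha b hb)

end Pool.Agent.Results.MP_a8a68c_co.Yes
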